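import Mathlib
import Pool.Agent.Helper889.Br.Tree

set_option autoImplicit false
set_option linter.unusedSectionVars false
set_option linter.unusedVariables false

namespace Pool.Agent.H71R2.WB

open Pool.Agent.Helper889.Br

variable {S : Sys}

theorem Sg_shift {n k : ℕ} {z : S.Bd} (hz : z n = S.o n) : S.Sg n k z ↔ S.Sg (n+1) k z := by
  constructor
  · rintro ⟨h1, h2, h3⟩
    have hne : n ≠ k := by
      rintro rfl
      rw [hz] at h2
      exact S.hot _ h2
    exact ⟨by omega, h2, fun j hj hk => h3 j (by omega) hk⟩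
  · rintro ⟨h1, h2, h3⟩
    refine ⟨by omega, h2, fun j hj hk => ?_⟩
    by_cases hjn : j = n
    · rw [hjn]; exact hz
    · exact h3 j (by omega) hk

theorem dirPt_shift {n : ℕ} (h : S.H) {z : S.Bd} (hz : z n = S.o n) : S.dirPt n h z = S.dirPt (n+1) h z := by
  funext i
  cases i with
  | zero => rfl
  | succ k =>
    by_cases hs : S.Sg n k z
    · rw [dirPt_succ_pos _ hs, dirPt_succ_pos _ ((Sg_shift hz).1 hs)]
    · rw [dirPt_succ_neg _ hs, dirPt_succ_neg _ (fun hc => hs ((Sg_shift hz).2 hc))]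

/-- `g` has germ `h` at `x`, seen from level `n` on -/
def GermAt (g : Equiv.Perm S.Bd) (x : S.Bd) (h : S.H) (n : ℕ) : Prop :=
  (∀ i, n ≤ i → x i = S.o i) ∧ (∀ i, n ≤ i → g x i = S.o i) ∧
    ∀ z : S.Bd, (∀ i < n, z i = x i) → g z = fun i => if i < n then g x i else S.dirPt n h z i

theorem GermAt_succ {g : Equiv.Perm S.Bd} {x : S.Bd} {h : S.H} {n : ℕ} (hg : GermAt g x h n) : GermAt g x h (n+1) := by
  obtain ⟨h1, h2, h3⟩ := hg
  refine ⟨fun i hi => h1 i (by omega), fun i hi => h2 i (by omega), fun z hz => ?_⟩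
  rw [h3 z (fun i hi => hz i (by omega))]
  have hzn : z n = S.o n := by rw [hz n (by omega), h1 n le_rfl]
  funext i
  by_cases hi : i < n
  · rw [if_pos hi, if_pos (by omega)]
  · rw [if_neg hi]
    by_cases hi' : i < n + 1
    · have : i = n := by omega
      subst this
      rw [if_pos hi', dirPt_le h z le_rfl, hzn, h2 _ le_rfl]
    · rw [if_neg hi', dirPt_shift h hzn]

theorem GermAt_mono {g : Equiv.Perm S.Bd} {x : S.Bd} {h : S.H} {n m : ℕ} (hg : GermAt g x h n) (hnm : n ≤ m) :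
    GermAt g x h m := by
  induction m, hnm using Nat.le_induction with
  | base => exact hg
  | succ m _ ih => exact GermAt_succ ih

theorem Germ_unique (hf : ∀ h : S.H, h ≠ 1 → ∀ n, ∃ k, n ≤ k ∧ S.ρ k h ≠ 1) {g : Equiv.Perm S.Bd} {x : S.Bd}
    {h h' : S.H} {n n' : ℕ} (hg : GermAt g x h n) (hg' : GermAt g x h' n') : h = h' := by
  by_contra hne
  have a1 := GermAt_mono hg (le_max_left n n')
  have a2 := GermAt_mono hg' (le_max_right n n')
  set m := max n n'
  obtain ⟨k, hk, hρ⟩ := hf (h⁻¹ * h') (fun hc => hne (inv_mul_eq_one.1 hc)) m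
  obtain ⟨y, hy⟩ : ∃ y, S.ρ k (h⁻¹ * h') y ≠ y := by
    by_contra hcon
    push Not at hcon
    exact hρ (Equiv.ext hcon)
  set z : S.Bd := Function.update (Function.update (fun i => if i < m then x i else S.o i) k (S.t k)) (k+1) y with hz
  have hzm : ∀ i < m, z i = x i := fun i hi => by
    rw [hz, Function.update_of_ne (by omega), Function.update_of_ne (by omega), if_pos hi]
  have z1 : z k = S.t k := by rw [hz, Function.update_of_ne (by omega), Function.update_self]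
  have z2 : z (k+1) = y := by rw [hz, Function.update_self]
  have hs : S.Sg m k z := by
    refine ⟨hk, z1, fun j hj hjk => ?_⟩
    rw [hz, Function.update_of_ne (by omega), Function.update_of_ne (by omega), if_neg (by omega)]
  have e1 := a1.2.2 z hzm
  have e2 := a2.2.2 z hzm
  have f2 := congrFun (e1.symm.trans e2) (k+1)
  rw [if_neg (by omega), if_neg (by omega), dirPt_succ_pos _ hs, dirPt_succ_pos _ hs, z2] at f2
  apply hy
  rw [map_mul, Equiv.Perm.mul_apply, ← f2, map_inv]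
  exact (S.ρ k h).symm_apply_apply _

theorem Germ_mul {g g' : Equiv.Perm S.Bd} {x : S.Bd} {h h' : S.H} {n n' : ℕ} (hg : GermAt g x h n)
    (hg' : GermAt g' (g x) h' n') : GermAt (g' * g) x (h' * h) (max n n') := by
  obtain ⟨a1, a2, a3⟩ := GermAt_mono hg (le_max_left n n')
  obtain ⟨b1, b2, b3⟩ := GermAt_mono hg' (le_max_right n n')
  set m := max n n'
  refine ⟨a1, b2, fun z hz => ?_⟩
  have e1 := a3 z hz
  rw [Equiv.Perm.mul_apply, b3 (g z) (fun i hi => by rw [e1]; simp only; rw [if_pos hi])]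
  funext i
  by_cases hi : i < m
  · rw [if_pos hi, if_pos hi]; rfl
  · rw [if_neg hi, if_neg hi, ← dirPt_mul]
    refine dirPt_congr _ (fun j hj _ => ?_) (by omega)
    rw [e1]; simp only
    rw [if_neg (by omega)]

theorem Germ_one {x : S.Bd} {n : ℕ} (hx : ∀ i, n ≤ i → x i = S.o i) : GermAt (1 : Equiv.Perm S.Bd) x 1 n := by
  refine ⟨hx, hx, fun z hz => ?_⟩
  funext i
  rw [dirPt_one]
  split_ifs with hi
  · exact hz i hi
  · rfl

theorem Germ_root (a : Equiv.Perm (S.X 0)) {x : S.Bd} {n : ℕ} (hn : 1 ≤ n) (hx : ∀ i, n ≤ i → x i = S.o i) :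
    GermAt (root a) x 1 n := by
  refine ⟨hx, fun i hi => ?_, fun z hz => ?_⟩
  · obtain ⟨k, rfl⟩ : ∃ k, i = k + 1 := ⟨i - 1, by omega⟩
    rw [root_succ]; exact hx _ hi
  · funext i
    rw [dirPt_one]
    cases i with
    | zero => rw [if_pos (by omega), root_zero, root_zero, hz 0 (by omega)]
    | succ k =>
      rw [root_succ, root_succ]
      split_ifs with hi
      · exact hz _ hi
      · rfl

theorem Germ_dir_o (h : S.H) : GermAt (dir 0 h) S.o h 0 := by
  have e : dir 0 h S.o = S.o := by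
    funext i
    cases i with
    | zero => rfl
    | succ k => exact dirPt_succ_neg h fun hs => S.hot k hs.2.1
  refine ⟨fun i _ => rfl, fun i _ => by rw [e], fun z _ => ?_⟩
  funext i
  rw [if_neg (by omega)]
  rfl

theorem Germ_dir_ne (h : S.H) {x : S.Bd} {N : ℕ} (hx : ∀ i, N ≤ i → x i = S.o i)
    (hne : x ≠ S.o) : ∃ m, GermAt (dir 0 h) x 1 m := by
  classical
  have hex : ∃ k, x k ≠ S.o k := by
    by_contra hcon
    push Not at hcon
    exact hne (funext hcon)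
  set k := Nat.find hex with hk
  have hk1 : x k ≠ S.o k := Nat.find_spec hex
  have hk2 : ∀ j < k, x j = S.o j := fun j hj => by
    have := Nat.find_min hex hj
    push Not at this
    exact this
  have hkN : k < N := by
    by_contra hcon
    exact hk1 (hx k (by omega))
  set m := max N (k+2) with hm
  have hno : ∀ z : S.Bd, (∀ i < m, z i = x i) → ∀ j, k < j → ¬ S.Sg 0 j z := by
    intro z hz j hj hs
    have := hs.2.2 k (Nat.zero_le _) hj
    rw [hz k (by omega)] at this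
    exact hk1 this
  refine ⟨m, fun i hi => hx i (by omega), fun i hi => ?_, fun z hz => ?_⟩
  · obtain ⟨j, rfl⟩ : ∃ j, i = j + 1 := ⟨i - 1, by omega⟩
    rw [dir_apply, dirPt_succ_neg h (hno x (fun _ _ => rfl) j (by omega))]
    exact hx _ (by omega)
  · funext i
    rw [dirPt_one]
    by_cases hi : i < m
    · rw [if_pos hi, dir_apply, dir_apply]
      cases i with
      | zero => exact hz 0 hi
      | succ j =>
        have hS : S.Sg 0 j z ↔ S.Sg 0 j x := Sg_congr fun i' _ hi' => hz i' (by omega)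
        by_cases hs : S.Sg 0 j x
        · rw [dirPt_succ_pos _ hs, dirPt_succ_pos _ (hS.2 hs), hz _ hi]
        · rw [dirPt_succ_neg _ hs, dirPt_succ_neg _ (fun hc => hs (hS.1 hc)), hz _ hi]
    · rw [if_neg hi]
      obtain ⟨j, rfl⟩ : ∃ j, i = j + 1 := ⟨i - 1, by omega⟩
      rw [dir_apply, dirPt_succ_neg h (hno z hz j (by omega))]

/-- the group -/
def GW (S : Sys) : Subgroup (Equiv.Perm S.Bd) := Subgroup.closure (Set.range (dir (S := S) 0) ∪ Set.range (root (S := S)))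

theorem dir_mem (h : S.H) : dir 0 h ∈ GW S := Subgroup.subset_closure (Or.inl ⟨h, rfl⟩)
theorem root_mem (a : Equiv.Perm (S.X 0)) : root a ∈ GW S := Subgroup.subset_closure (Or.inr ⟨a, rfl⟩)

theorem GW_TA {g : Equiv.Perm S.Bd} (hg : g ∈ GW S) : TA g := by
  unfold GW at hg
  induction hg using Subgroup.closure_induction with
  | mem g hg =>
    rcases hg with ⟨h, rfl⟩ | ⟨a, rfl⟩
    · exact TA_dir h
    · exact TA_root a
  | one => exact TA_one
  | mul a b _ _ iha ihb => exact TA_mul iha ihb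
  | inv a _ ih => exact TA_inv ih

theorem Germ_exists_aux {g : Equiv.Perm S.Bd} (hg : g ∈ GW S) : ∀ x : S.Bd, (∃ n, ∀ i, n ≤ i → x i = S.o i) →
    (∃ h n, GermAt g x h n) ∧ (∃ h n, GermAt g⁻¹ x h n) := by
  unfold GW at hg
  induction hg using Subgroup.closure_induction with
  | mem g hg =>
    rintro x ⟨n, hx⟩
    have hD : ∀ h : S.H, ∃ h' n, GermAt (dir 0 h) x h' n := by
      intro h
      by_cases hxo : x = S.o
      · rw [hxo]
        exact ⟨_, _, Germ_dir_o h⟩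
      · obtain ⟨m, hm⟩ := Germ_dir_ne h hx hxo
        exact ⟨1, m, hm⟩
    have hE : ∀ a : Equiv.Perm (S.X 0), ∃ h' n, GermAt (root a) x h' n := fun a =>
      ⟨1, max 1 n, Germ_root a (le_max_left _ _) fun i hi => hx i (by omega)⟩
    rcases hg with ⟨h, rfl⟩ | ⟨a, rfl⟩
    · exact ⟨hD h, by rw [← map_inv]; exact hD _⟩
    · exact ⟨hE a, by rw [← map_inv]; exact hE _⟩
  | one =>
    rintro x ⟨n, hx⟩
    rw [inv_one]
    exact ⟨⟨1, n, Germ_one hx⟩, ⟨1, n, Germ_one hx⟩⟩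
  | mul a b _ _ iha ihb =>
    rintro x hx
    constructor
    · obtain ⟨h, n, h1⟩ := (ihb x hx).1
      obtain ⟨h', n', h2⟩ := (iha (b x) ⟨n, h1.2.1⟩).1
      exact ⟨h' * h, _, Germ_mul h1 h2⟩
    · rw [mul_inv_rev]
      obtain ⟨h, n, h1⟩ := (iha x hx).2
      obtain ⟨h', n', h2⟩ := (ihb (a⁻¹ x) ⟨n, h1.2.1⟩).2
      exact ⟨h' * h, _, Germ_mul h1 h2⟩
  | inv a _ ih =>
    rintro x hx
    rw [inv_inv]
    exact (ih x hx).symm

/-- the germ of `g⁻¹` at the base point -/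
noncomputable def gam (g : GW S) : S.H :=
  (Germ_exists_aux g.2 S.o ⟨0, fun _ _ => rfl⟩).2.choose

theorem gam_spec (g : GW S) : ∃ n, GermAt (g : Equiv.Perm S.Bd)⁻¹ S.o (gam g) n :=
  (Germ_exists_aux g.2 S.o ⟨0, fun _ _ => rfl⟩).2.choose_spec

section
variable (hf : ∀ h : S.H, h ≠ 1 → ∀ n, ∃ k, n ≤ k ∧ S.ρ k h ≠ 1)
include hf

theorem gam_mul (g s : GW S) {h : S.H} {n : ℕ} (hs : GermAt (s : Equiv.Perm S.Bd)⁻¹ ((g : Equiv.Perm S.Bd)⁻¹ S.o) h n) :
    gam (g * s) = h * gam g := by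
  obtain ⟨m, hm⟩ := gam_spec g
  obtain ⟨m', hm'⟩ := gam_spec (g * s)
  have h1 := Germ_mul hm hs
  have e : ((g * s : GW S) : Equiv.Perm S.Bd)⁻¹ = (s : Equiv.Perm S.Bd)⁻¹ * (g : Equiv.Perm S.Bd)⁻¹ := by
    rw [Subgroup.coe_mul, mul_inv_rev]
  rw [e] at hm'
  exact Germ_unique hf hm' h1

theorem gam_root (g : GW S) (a : Equiv.Perm (S.X 0)) : gam (g * ⟨root a, root_mem a⟩) = gam g := by
  obtain ⟨m, hm⟩ := gam_spec g
  have h1 : GermAt (((⟨root a, root_mem a⟩ : GW S) : Equiv.Perm S.Bd))⁻¹ ((g : Equiv.Perm S.Bd)⁻¹ S.o) 1 (max 1 m) := by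
    show GermAt (root a)⁻¹ _ _ _
    rw [← map_inv]
    exact Germ_root a⁻¹ (le_max_left _ _) fun i hi => hm.2.1 i (by omega)
  rw [gam_mul hf g _ h1, one_mul]

theorem gam_dir_eq (g : GW S) (h : S.H) (hg : (g : Equiv.Perm S.Bd)⁻¹ S.o = S.o) :
    gam (g * ⟨dir 0 h, dir_mem h⟩) = h⁻¹ * gam g := by
  refine gam_mul hf g _ (n := 0) ?_
  show GermAt (dir 0 h)⁻¹ _ _ _
  rw [← map_inv, hg]
  exact Germ_dir_o h⁻¹

theorem gam_dir_ne (g : GW S) (h : S.H) (hg : (g : Equiv.Perm S.Bd)⁻¹ S.o ≠ S.o) :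
    gam (g * ⟨dir 0 h, dir_mem h⟩) = gam g := by
  obtain ⟨m, hm⟩ := gam_spec g
  obtain ⟨m', hm'⟩ := Germ_dir_ne h⁻¹ hm.2.1 hg
  have h1 : GermAt (((⟨dir 0 h, dir_mem h⟩ : GW S) : Equiv.Perm S.Bd))⁻¹ ((g : Equiv.Perm S.Bd)⁻¹ S.o) 1 m' := by
    show GermAt (dir 0 h)⁻¹ _ _ _
    rw [← map_inv]
    exact hm'
  rw [gam_mul hf g _ h1, one_mul]

theorem gam_one : gam (1 : GW S) = 1 := by
  obtain ⟨m, hm⟩ := gam_spec (1 : GW S)
  have : GermAt ((1 : GW S) : Equiv.Perm S.Bd)⁻¹ S.o (1 : S.H) 0 := by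
    have e : ((1 : GW S) : Equiv.Perm S.Bd)⁻¹ = 1 := by simp
    rw [e]
    exact Germ_one fun _ _ => rfl
  exact Germ_unique hf hm this

theorem gam_dir (h : S.H) : gam (⟨dir 0 h, dir_mem h⟩ : GW S) = h⁻¹ := by
  have h1 := gam_dir_eq hf (1 : GW S) h (by simp)
  rw [one_mul, gam_one hf, mul_one] at h1
  exact h1

/-- lifting harmonic functions from the germ group -/
theorem lift_harmonic {J : Type} [Fintype J] (gen : J → S.H) (F : S.H → ℝ)
    (hF : ∀ v, (∑ j, F (v * gen j)) = Fintype.card J * F v) (g : GW S) :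
    (∑ j : Equiv.Perm (S.X 0) ⊕ J, F (gam (g * Sum.elim (fun a => (⟨root a, root_mem a⟩ : GW S))
      (fun j => ⟨dir 0 (gen j), dir_mem (gen j)⟩) j))⁻¹)
      = Fintype.card (Equiv.Perm (S.X 0) ⊕ J) * F (gam g)⁻¹ := by
  rw [Fintype.sum_sum_type, Fintype.card_sum]
  simp only [Sum.elim_inl, Sum.elim_inr]
  simp only [gam_root hf]
  rw [Finset.sum_const, nsmul_eq_mul, Finset.card_univ]
  push_cast
  rw [add_mul]
  congr 1
  by_cases hu : (g : Equiv.Perm S.Bd)⁻¹ S.o = S.o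
  · have h2 : ∀ j, (gam (g * ⟨dir 0 (gen j), dir_mem (gen j)⟩))⁻¹ = (gam g)⁻¹ * gen j := by
      intro j
      rw [gam_dir_eq hf g (gen j) hu, mul_inv_rev, inv_inv]
    simp only [h2]
    exact hF _
  · have h2 : ∀ j, gam (g * ⟨dir 0 (gen j), dir_mem (gen j)⟩) = gam g := fun j => gam_dir_ne hf g (gen j) hu
    simp only [h2]
    rw [Finset.sum_const, nsmul_eq_mul, Finset.card_univ]

end

end Pool.Agent.H71R2.WB
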