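import Mathlib
import Pool.Agent.Helper889.Si.Final
import Pool.Agent.H71R2.WB.Germ

set_option autoImplicit false
set_option linter.unusedSectionVars false
set_option linter.unusedVariables false

namespace Pool.Agent.H71R2.WB

open Pool.Agent.Helper889 Pool.Agent.Helper889.Br

variable {S : Sys} {J : Type} [Fintype J]

/-- directed elements of the group -/
noncomputable def dG (h : S.H) : GW S := ⟨dir 0 h, dir_mem h⟩
/-- rooted elements of the group -/
noncomputable def rG (a : Equiv.Perm (S.X 0)) : GW S := ⟨root a, root_mem a⟩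

theorem dG_coe (h : S.H) : ((dG h : GW S) : Equiv.Perm S.Bd) = dir 0 h := rfl
theorem rG_coe (a : Equiv.Perm (S.X 0)) : ((rG a : GW S) : Equiv.Perm S.Bd) = root a := rfl
theorem dG_inv (h : S.H) : (dG h⁻¹ : GW S) = (dG h)⁻¹ := Subtype.ext (map_inv (dir 0) h)
theorem rG_inv (a : Equiv.Perm (S.X 0)) : (rG a⁻¹ : GW S) = (rG a)⁻¹ := Subtype.ext (map_inv root a)
theorem rG_one : (rG 1 : GW S) = 1 := Subtype.ext (map_one root)

/-- the generators -/
noncomputable def sW (gen : J → S.H) : Equiv.Perm (S.X 0) ⊕ J → GW S := Sum.elim rG (fun j => dG (gen j))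

theorem sW_top (gen : J → S.H) (hgen : Subgroup.closure (Set.range gen) = ⊤) : Subgroup.closure (Set.range (sW gen)) = ⊤ := by
  set K : Subgroup (GW S) := Subgroup.closure (Set.range (sW gen)) with hK
  have h2 : GW S ≤ K.map (Subgroup.subtype _) := by
    conv_lhs => unfold GW
    rw [Subgroup.closure_le]
    rintro _ (⟨h, rfl⟩ | ⟨a, rfl⟩)
    · have h3 : (⊤ : Subgroup S.H) ≤ (K.map (Subgroup.subtype _)).comap (dir 0) := by
        rw [← hgen, Subgroup.closure_le]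
        rintro _ ⟨j, rfl⟩
        exact ⟨sW gen (Sum.inr j), Subgroup.subset_closure ⟨_, rfl⟩, rfl⟩
      exact h3 (Subgroup.mem_top h)
    · exact ⟨sW gen (Sum.inl a), Subgroup.subset_closure ⟨_, rfl⟩, rfl⟩
  rw [eq_top_iff]
  intro x _
  obtain ⟨y, hy, hyx⟩ := h2 x.2
  have : y = x := Subtype.ext hyx
  rw [← this]
  exact hy

theorem fg_GW (gen : J → S.H) (hgen : Subgroup.closure (Set.range gen) = ⊤) : Group.FG (GW S) :=
  Group.fg_iff.2 ⟨_, sW_top gen hgen, Set.finite_range _⟩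

/-- inversion -/
def sJ (σ : Equiv.Perm J) : Equiv.Perm (Equiv.Perm (S.X 0) ⊕ J) := Equiv.sumCongr (Equiv.inv _) σ

theorem sW_inv (gen : J → S.H) (σ : Equiv.Perm J) (hσ : ∀ j, gen (σ j) = (gen j)⁻¹) (j : Equiv.Perm (S.X 0) ⊕ J) :
    sW gen (sJ σ j) = (sW gen j)⁻¹ := by
  rcases j with a | j
  · exact rG_inv a
  · show dG (gen (σ j)) = (dG (gen j))⁻¹
    rw [hσ, dG_inv]

theorem semigroup_top (gen : J → S.H) (hgen : Subgroup.closure (Set.range gen) = ⊤) (σ : Equiv.Perm J)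
    (hσ : ∀ j, gen (σ j) = (gen j)⁻¹) : Subsemigroup.closure (Set.range (sW gen)) = ⊤ := by
  have key : ∀ x ∈ Subgroup.closure (Set.range (sW gen)), x ∈ Subsemigroup.closure (Set.range (sW gen)) ∧
      x⁻¹ ∈ Subsemigroup.closure (Set.range (sW gen)) := by
    intro x hx
    have h1 : (1 : GW S) ∈ Subsemigroup.closure (Set.range (sW gen)) :=
      Subsemigroup.subset_closure ⟨Sum.inl 1, rG_one⟩
    induction hx using Subgroup.closure_induction with
    | mem x hx =>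
      obtain ⟨j, rfl⟩ := hx
      exact ⟨Subsemigroup.subset_closure ⟨j, rfl⟩, by rw [← sW_inv gen σ hσ]; exact Subsemigroup.subset_closure ⟨_, rfl⟩⟩
    | one => rw [inv_one]; exact ⟨h1, h1⟩
    | mul x y _ _ ihx ihy =>
      rw [mul_inv_rev]
      exact ⟨Subsemigroup.mul_mem _ ihx.1 ihy.1, Subsemigroup.mul_mem _ ihy.2 ihx.2⟩
    | inv x _ ih => rw [inv_inv]; exact ⟨ih.2, ih.1⟩
  rw [eq_top_iff]
  intro x _
  exact (key x (by rw [sW_top gen hgen]; exact Subgroup.mem_top x)).1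

theorem meas_GW (hf : ∀ h : S.H, h ≠ 1 → ∀ n, ∃ k, n ≤ k ∧ S.ρ k h ≠ 1) (gen : J → S.H)
    (hgen : Subgroup.closure (Set.range gen) = ⊤) (σ : Equiv.Perm J) (hσ : ∀ j, gen (σ j) = (gen j)⁻¹)
    (F : S.H → ℝ) (hF1 : ∀ v, (∑ j, F (v * gen j)) = Fintype.card J * F v) (hF2 : ∀ v, 0 ≤ F v ∧ F v ≤ 1)
    {a : S.H} (ha : F a ≠ F 1) :
    ∃ μ : GW S →₀ ℝ, (∀ g, 0 ≤ μ g) ∧ Finsupp.sum μ (fun _ w => w) = 1 ∧
    (∀ g, μ g⁻¹ = μ g) ∧ Subsemigroup.closure (↑μ.support : Set (GW S)) = ⊤ ∧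
    ∃ f : GW S → ℝ, (∃ C : ℝ, ∀ g, |f g| ≤ C) ∧
      (∀ g, f g = Finsupp.sum μ (fun s w => w * f (g * s))) ∧ ∃ a b, f a ≠ f b := by
  have hcard : (0:ℝ) < Fintype.card (Equiv.Perm (S.X 0) ⊕ J) := by exact_mod_cast Fintype.card_pos
  have hlift : ∀ g : GW S, (∑ j : Equiv.Perm (S.X 0) ⊕ J, F (gam (g * sW gen j))⁻¹)
      = Fintype.card (Equiv.Perm (S.X 0) ⊕ J) * F (gam g)⁻¹ := lift_harmonic hf gen F hF1
  refine ⟨Si.um (sW gen), Si.um_nonneg _, ?_, Si.um_symm _ (sJ σ) (sW_inv gen σ hσ), ?_,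
    fun g => F (gam g)⁻¹, ⟨1, fun g => ?_⟩, fun g => ?_, ?_⟩
  · have := Si.um_sum (sW gen) (fun _ => 1)
    simp only [mul_one] at this
    rw [this, Finset.sum_const, nsmul_eq_mul, mul_one, Finset.card_univ]
    exact div_self hcard.ne'
  · rw [Si.um_support]
    exact semigroup_top gen hgen σ hσ
  · rw [abs_of_nonneg (hF2 _).1]; exact (hF2 _).2
  · rw [Si.um_sum (sW gen) (fun h => F (gam (g * h))⁻¹), eq_div_iff hcard.ne', mul_comm]
    exact (hlift g).symm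
  · refine ⟨dG a, 1, ?_⟩
    show F (gam (dG a : GW S))⁻¹ ≠ F (gam (1 : GW S))⁻¹
    have e : gam (dG a : GW S) = a⁻¹ := gam_dir hf a
    rw [e, gam_one hf, inv_inv, inv_one]
    exact ha

/-- level transitivity -/
theorem level_trans (htr : ∀ k (x y : S.X (k+1)), ∃ h, S.ρ k h x = y) (n : ℕ) :
    ∀ x y : S.Bd, ∃ g : GW S, ∀ i < n, (g : Equiv.Perm S.Bd) x i = y i := by
  induction n with
  | zero => intro x y; exact ⟨1, fun i hi => absurd hi (Nat.not_lt_zero i)⟩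
  | succ n ih =>
    intro x y
    cases n with
    | zero =>
      refine ⟨rG (Equiv.swap (x 0) (y 0)), fun i hi => ?_⟩
      have : i = 0 := by omega
      subst this
      rw [rG_coe, root_zero, Equiv.swap_apply_left]
    | succ n =>
      -- the word o^n t
      set w : S.Bd := fun i => if i = n then S.t i else S.o i with hw
      obtain ⟨g1, hg1⟩ := ih x w
      obtain ⟨g2, hg2⟩ := ih y w
      have hs1 : S.Sg 0 n ((g1 : Equiv.Perm S.Bd) x) := by
        refine ⟨Nat.zero_le _, ?_, fun j _ hj => ?_⟩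
        · rw [hg1 n (by omega), hw]; simp
        · rw [hg1 j (by omega), hw]; simp only; rw [if_neg (by omega)]
      obtain ⟨h, hh⟩ := htr n ((g1 : Equiv.Perm S.Bd) x (n+1)) ((g2 : Equiv.Perm S.Bd) y (n+1))
      have hTA := GW_TA g2.2
      refine ⟨g2⁻¹ * dG h * g1, ?_⟩
      rw [hTA]
      intro i hi
      have e : (g2 : Equiv.Perm S.Bd) (((g2⁻¹ * dG h * g1 : GW S) : Equiv.Perm S.Bd) x)
          = dir 0 h ((g1 : Equiv.Perm S.Bd) x) := by
        show (g2 : Equiv.Perm S.Bd) ((g2 : Equiv.Perm S.Bd)⁻¹ (dir 0 h ((g1 : Equiv.Perm S.Bd) x))) = _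
        exact (g2 : Equiv.Perm S.Bd).apply_symm_apply _
      rw [e, dir_apply]
      by_cases hi' : i = n + 1
      · subst hi'
        rw [dirPt_succ_pos _ hs1]
        exact hh
      · have h5 : S.dirPt 0 h ((g1 : Equiv.Perm S.Bd) x) i = (g1 : Equiv.Perm S.Bd) x i := by
          cases i with
          | zero => rfl
          | succ k =>
            refine dirPt_succ_neg _ fun hc => hi' ?_
            rw [Sg_unique hc hs1]
        rw [h5, hg1 i (by omega), hg2 i (by omega)]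

/-- rigid stabilisers are nontrivial if they are so along `o` -/
theorem rist_of (n : ℕ) (htr : ∀ x y : S.Bd, ∃ g : GW S, ∀ i < n, (g : Equiv.Perm S.Bd) x i = y i)
    (r : GW S) (hr : r ≠ 1) (hro : ∀ z : S.Bd, (¬ ∀ j < n, z j = S.o j) → (r : Equiv.Perm S.Bd) z = z) (x : S.Bd) :
    ∃ g : GW S, g ≠ 1 ∧ ∀ z : S.Bd, (∃ i < n, z i ≠ x i) → (g : Equiv.Perm S.Bd) z = z := by
  obtain ⟨g, hg⟩ := htr S.o x
  refine ⟨g * r * g⁻¹, ?_, fun z hz => ?_⟩
  · intro h
    apply hr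
    have : r = g⁻¹ * (g * r * g⁻¹) * g := by group
    rw [this, h]; group
  · show (g : Equiv.Perm S.Bd) ((r : Equiv.Perm S.Bd) ((g : Equiv.Perm S.Bd)⁻¹ z)) = z
    have h1 : (r : Equiv.Perm S.Bd) ((g : Equiv.Perm S.Bd)⁻¹ z) = (g : Equiv.Perm S.Bd)⁻¹ z := by
      apply hro
      intro hc
      obtain ⟨i, hi, hne⟩ := hz
      have h2 := (GW_TA g.2 ((g : Equiv.Perm S.Bd)⁻¹ z) S.o n).1 hc i hi
      have h3 : (g : Equiv.Perm S.Bd) ((g : Equiv.Perm S.Bd)⁻¹ z) = z := (g : Equiv.Perm S.Bd).apply_symm_apply z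
      rw [h3, hg i hi] at h2
      exact hne h2
    rw [h1]
    exact (g : Equiv.Perm S.Bd).apply_symm_apply z

end Pool.Agent.H71R2.WB
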