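import Mathlib
import Pool.Agent.Helper889.Br.Harm
import Pool.Agent.Helper889.Br.Folner
import Pool.Agent.H71R2.WB.Germ

set_option autoImplicit false
set_option linter.unusedSectionVars false
set_option linter.unusedVariables false

namespace Pool.Agent.H71R2.WB

open Pool.Agent.Helper889.Br

abbrev P5 := Equiv.Perm (Fin 5)

theorem act_q (m : ℕ) (q : P5) (x : Xl m) : act m ((1 : Lp), q) x = (x.1, x.2.1, q x.2.2) := by
  rw [act_apply]
  show (pr m (1 : Lp).n + x.1, x.2.1 + bar m (1 : Lp).f (pr m (1 : Lp).n + x.1), q x.2.2) = _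
  rw [Lp.one_n, Lp.one_f, pr_zero, zero_add]
  simp [bar]

/-- change of the third coordinate of letter `n` below `o^n` -/
noncomputable def RnF (n : ℕ) (q : P5) (x : S0.Bd) : S0.Bd := fun i =>
  if i = n ∧ ∀ j < n, x j = S0.o j then ((x i).1, (x i).2.1, q (x i).2.2) else x i

theorem RnF_ne {n : ℕ} {q : P5} {x : S0.Bd} {i : ℕ} (h : i ≠ n) : RnF n q x i = x i :=
  if_neg fun hc => h hc.1

theorem RnF_pos {n : ℕ} {q : P5} {x : S0.Bd} (h : ∀ j < n, x j = S0.o j) :
    RnF n q x n = ((x n).1, (x n).2.1, q (x n).2.2) := if_pos ⟨rfl, h⟩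

theorem RnF_neg {n : ℕ} {q : P5} {x : S0.Bd} (h : ¬ ∀ j < n, x j = S0.o j) : RnF n q x = x := by
  funext i
  exact if_neg fun hc => h hc.2

theorem RnF_cond {n : ℕ} (q : P5) (x : S0.Bd) : (∀ j < n, RnF n q x j = S0.o j) ↔ ∀ j < n, x j = S0.o j := by
  constructor
  · intro h j hj
    rw [← h j hj, RnF_ne (by omega)]
  · intro h j hj
    rw [RnF_ne (by omega), h j hj]

theorem RnF_mul (n : ℕ) (q q' : P5) (x : S0.Bd) : RnF n q (RnF n q' x) = RnF n (q * q') x := by
  by_cases h : ∀ j < n, x j = S0.o j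
  · funext i
    by_cases hi : i = n
    · subst hi
      rw [RnF_pos h, RnF_pos ((RnF_cond q' x).2 h), RnF_pos h]
      rfl
    · rw [RnF_ne hi, RnF_ne hi, RnF_ne hi]
  · rw [RnF_neg h, RnF_neg h, RnF_neg h]

theorem RnF_one (n : ℕ) (x : S0.Bd) : RnF n 1 x = x := by
  by_cases h : ∀ j < n, x j = S0.o j
  · funext i
    by_cases hi : i = n
    · subst hi
      rw [RnF_pos h]
      rfl
    · rw [RnF_ne hi]
  · exact RnF_neg h

/-- change of the third coordinate of letter `n` below `o^n` -/
noncomputable def Rn (n : ℕ) : P5 →* Equiv.Perm S0.Bd where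
  toFun q := ⟨RnF n q, RnF n q⁻¹, fun x => by rw [RnF_mul, inv_mul_cancel, RnF_one],
    fun x => by rw [RnF_mul, mul_inv_cancel, RnF_one]⟩
  map_one' := by
    ext1 x
    exact RnF_one n x
  map_mul' q q' := by
    ext1 x
    exact (RnF_mul n q q' x).symm

theorem Rn_apply (n : ℕ) (q : P5) (x : S0.Bd) : Rn n q x = RnF n q x := rfl

/-- the letter `c` -/
def cc (n : ℕ) : S0.X n := (0, 0, 2)

theorem cc_ne_o (n : ℕ) : cc n ≠ S0.o n := by
  intro h
  have : (2 : Fin 5) = 0 := congrArg (fun z : Xl (n+2) => z.2.2) h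
  exact absurd this (by decide)

theorem cc_ne_t (n : ℕ) : cc n ≠ S0.t n := by
  intro h
  have : (2 : Fin 5) = 1 := congrArg (fun z : Xl (n+2) => z.2.2) h
  exact absurd this (by decide)

/-- support of the directed elements -/
def US (x : S0.Bd) : Prop := ∃ k, S0.Sg 0 k x

theorem not_US {x : S0.Bd} {k : ℕ} (h1 : x k = cc k) (h2 : ∀ j < k, x j = S0.o j) : ¬ US x := by
  rintro ⟨k', -, h3, h4⟩
  rcases lt_trichotomy k k' with h | h | h
  · have := h4 k (Nat.zero_le _) h
    rw [h1] at this
    exact cc_ne_o k this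
  · subst h
    rw [h1] at h3
    exact cc_ne_t k h3
  · have := h2 k' h
    rw [h3] at this
    exact S0.hot k' this.symm

theorem dir_not_US (h : S0.H) {x : S0.Bd} (hx : ¬ US x) : dir 0 h x = x := by
  funext i
  cases i with
  | zero => rfl
  | succ k => exact dirPt_succ_neg h fun hs => hx ⟨k, hs⟩

/-- commutators of permutations whose supports meet in an invariant set -/
theorem comm_outside {α : Type} (D E : Equiv.Perm α) (C : Set α) (hD : ∀ x, x ∈ C ↔ D x ∈ C) (hE : ∀ x, x ∈ C ↔ E x ∈ C)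
    (h : ∀ x, x ∉ C → D x = x ∨ E x = x) (y : α) (hy : y ∉ C) : D (E y) = E (D y) := by
  have hDy : D y ∉ C := fun hc => hy ((hD y).2 hc)
  have hEy : E y ∉ C := fun hc => hy ((hE y).2 hc)
  rcases h y hy with h1 | h1
  · rw [h1]
    rcases h (E y) hEy with h2 | h2
    · exact h2
    · have h3 : E y = y := E.injective h2
      rw [h3, h1]
  · rw [h1]
    rcases h (D y) hDy with h2 | h2
    · have h3 : D y = y := D.injective h2
      rw [h3, h1]
    · exact h2.symm

/-- the element pushing the cones `o^k t`, `k < n`, off the support -/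
noncomputable def Wn (σ : P5) : ℕ → Equiv.Perm S0.Bd
  | 0 => 1
  | (n+1) => Rn n σ * Wn σ n

theorem Wn_fix (σ : P5) (h0 : σ 0 = 0) (n : ℕ) (x : S0.Bd) (h : ∀ j < n, x j = S0.o j) : Wn σ n x = x := by
  induction n with
  | zero => rfl
  | succ n ih =>
    show Rn n σ (Wn σ n x) = x
    rw [ih fun j hj => h j (by omega), Rn_apply]
    funext i
    by_cases hi : i = n
    · subst hi
      rw [RnF_pos fun j hj => h j (by omega), h i (by omega)]
      show ((0 : Fin 5 → ZMod (i+2)), (0 : ZMod 2), σ 0) = (0, 0, 0)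
      rw [h0]
    · rw [RnF_ne hi]

theorem Wn_push (σ : P5) (h0 : σ 0 = 0) (h1 : σ 1 = 2) (n : ℕ) (x : S0.Bd) (k : ℕ) (hk : k < n) (hs : S0.Sg 0 k x) :
    ∃ k < n, Wn σ n x k = cc k ∧ ∀ j < k, Wn σ n x j = S0.o j := by
  induction n with
  | zero => omega
  | succ n ih =>
    by_cases hkn : k < n
    · obtain ⟨k', hk', h2, h3⟩ := ih hkn
      have e : Wn σ (n+1) x = Wn σ n x := by
        show Rn n σ (Wn σ n x) = _
        rw [Rn_apply, RnF_neg]
        intro hc
        have := hc k' hk'
        rw [h2] at this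
        exact cc_ne_o k' this
      rw [e]
      exact ⟨k', by omega, h2, h3⟩
    · have hkn' : k = n := by omega
      subst hkn'
      have e : Wn σ (k+1) x = RnF k σ x := by
        show Rn k σ (Wn σ k x) = _
        rw [Wn_fix σ h0 k x fun j hj => hs.2.2 j (Nat.zero_le _) hj, Rn_apply]
      rw [e]
      refine ⟨k, by omega, ?_, fun j hj => ?_⟩
      · rw [RnF_pos fun j hj => hs.2.2 j (Nat.zero_le _) hj, hs.2.1]
        show ((0 : Fin 5 → ZMod (k+2)), (0 : ZMod 2), σ 1) = (0, 0, 2)
        rw [h1]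
      · rw [RnF_ne (by omega)]
        exact hs.2.2 j (Nat.zero_le _) hj

/-- three explicit commutators -/
theorem ex_sigma : ∃ a b : P5, (a * b * a⁻¹ * b⁻¹) 0 = 0 ∧ (a * b * a⁻¹ * b⁻¹) 1 = 2 :=
  ⟨Equiv.swap 1 3, Equiv.swap 2 3, by decide, by decide⟩

theorem ex_tau : ∃ a b : P5, (a * b * a⁻¹ * b⁻¹) 1 = 1 ∧ (a * b * a⁻¹ * b⁻¹) 0 = 2 :=
  ⟨Equiv.swap 0 3, Equiv.swap 2 3, by decide, by decide⟩

theorem ex_kappa : ∃ a b : P5, (a * b * a⁻¹ * b⁻¹) 0 = 1 :=
  ⟨Equiv.swap 0 2, Equiv.swap 1 2, by decide⟩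

/-- all commutators at level `n` are in the group -/
theorem Rn_mem (n : ℕ) : ∀ a b : P5, Rn n (a * b * a⁻¹ * b⁻¹) ∈ GW S0 := by
  induction n using Nat.strong_induction_on with
  | _ n ih =>
  cases n with
  | zero =>
    intro a b
    have e : Rn 0 (a * b * a⁻¹ * b⁻¹) = root (act 2 ((1 : Lp), a * b * a⁻¹ * b⁻¹)) := by
      ext1 x
      funext i
      cases i with
      | zero =>
        rw [Rn_apply, RnF_pos (fun j hj => absurd hj (Nat.not_lt_zero j)), root_zero]
        exact (act_q _ _ _).symm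
      | succ k =>
        rw [Rn_apply, RnF_ne (by omega), root_succ]
    rw [e]
    exact root_mem _
  | succ n =>
    intro a b
    obtain ⟨s1, s2, hs0, hs1⟩ := ex_sigma
    obtain ⟨t1, t2, ht1, ht0⟩ := ex_tau
    obtain ⟨k1, k2, hk0⟩ := ex_kappa
    set σ := s1 * s2 * s1⁻¹ * s2⁻¹
    set τ := t1 * t2 * t1⁻¹ * t2⁻¹
    set κ := k1 * k2 * k1⁻¹ * k2⁻¹
    have hσm : ∀ m, m ≤ n → Wn σ m ∈ GW S0 := by
      intro m
      induction m with
      | zero => intro _; exact one_mem _
      | succ m ihm =>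
        intro hm
        exact mul_mem (ih m (by omega) s1 s2) (ihm (by omega))
    have hτm : Rn n τ ∈ GW S0 := ih n (by omega) t1 t2
    have hκm : Rn n κ ∈ GW S0 := ih n (by omega) k1 k2
    set g := Rn n τ * Wn σ n with hg
    have hgm : g ∈ GW S0 := mul_mem hτm (hσm n le_rfl)
    -- action of g on the support
    have hgC : ∀ x, S0.Sg 0 n x → g x = x := by
      intro x hx
      have ho : ∀ j < n, x j = S0.o j := fun j hj => hx.2.2 j (Nat.zero_le _) hj
      show Rn n τ (Wn σ n x) = x
      rw [Wn_fix σ hs0 n x ho, Rn_apply]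
      funext i
      by_cases hi : i = n
      · subst hi
        rw [RnF_pos ho, hx.2.1]
        show ((0 : Fin 5 → ZMod (i+2)), (0 : ZMod 2), τ 1) = (0, 0, 1)
        rw [ht1]
      · rw [RnF_ne hi]
    have hgU : ∀ x, US x → ¬ S0.Sg 0 n x → ¬ US (g x) := by
      rintro x ⟨k, hk⟩ hn
      rcases lt_trichotomy k n with h | h | h
      · obtain ⟨k', hk', h1, h2⟩ := Wn_push σ hs0 hs1 n x k h hk
        have e : g x = Wn σ n x := by
          show Rn n τ (Wn σ n x) = _
          rw [Rn_apply, RnF_neg]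
          intro hc
          have := hc k' hk'
          rw [h1] at this
          exact cc_ne_o k' this
        rw [e]
        exact not_US h1 h2
      · subst h
        exact absurd hk hn
      · have ho : ∀ j < n, x j = S0.o j := fun j hj => hk.2.2 j (Nat.zero_le _) (by omega)
        have e : g x = RnF n τ x := by
          show Rn n τ (Wn σ n x) = _
          rw [Wn_fix σ hs0 n x ho, Rn_apply]
        rw [e]
        refine not_US (k := n) ?_ ?_
        · rw [RnF_pos ho, hk.2.2 n (Nat.zero_le _) h]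
          show ((0 : Fin 5 → ZMod (n+2)), (0 : ZMod 2), τ 0) = (0, 0, 2)
          rw [ht0]
        · intro j hj
          rw [RnF_ne (by omega)]
          exact ho j hj
    -- the two permutations
    set D := dir (S := S0) 0 ((1 : Lp), a) with hD
    set D' := dir (S := S0) 0 ((1 : Lp), b) with hD'
    set E := g * D' * g⁻¹ with hE
    have hDm : D ∈ GW S0 := dir_mem _
    have hEm : E ∈ GW S0 := mul_mem (mul_mem hgm (dir_mem _)) (inv_mem hgm)
    have hdC : ∀ (h : S0.H) (x : S0.Bd), S0.Sg 0 n x ↔ S0.Sg 0 n (dir 0 h x) := fun h x => (Sg_dirPt h x).symm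
    have hg1 : ∀ x, g⁻¹ (g x) = x := fun x => g.symm_apply_apply x
    have hg2 : ∀ x, g (g⁻¹ x) = x := fun x => g.apply_symm_apply x
    have hgC' : ∀ x, S0.Sg 0 n x → g⁻¹ x = x := by
      intro x hx
      have h1 := hgC x hx
      conv_lhs => rw [← h1]
      exact hg1 x
    have hEC : ∀ x, S0.Sg 0 n x → E x = D' x := by
      intro x hx
      show g (D' (g⁻¹ x)) = D' x
      rw [hgC' x hx]
      exact hgC _ ((hdC _ x).1 hx)
    have hEU : ∀ x, US x → ¬ S0.Sg 0 n x → E x = x := by
      intro x hx hn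
      have h1 : ¬ US (g⁻¹ x) := by
        intro hc
        by_cases hcn : S0.Sg 0 n (g⁻¹ x)
        · have h2 := hgC _ hcn
          rw [hg2] at h2
          apply hn
          rw [h2]
          exact hcn
        · have h2 := hgU _ hc hcn
          rw [hg2] at h2
          exact h2 hx
      show g (D' (g⁻¹ x)) = x
      rw [dir_not_US _ h1, hg2]
    have hECiff : ∀ x, S0.Sg 0 n x ↔ S0.Sg 0 n (E x) := by
      intro x
      constructor
      · intro hx
        rw [hEC x hx]
        exact (hdC _ x).1 hx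
      · intro hx
        have h1 : S0.Sg 0 n (g⁻¹ (E x)) := by
          rw [hgC' _ hx]; exact hx
        have h2 : g⁻¹ (E x) = D' (g⁻¹ x) := hg1 _
        rw [h2] at h1
        have h3 := (hdC _ _).2 h1
        have h4 := hgC _ h3
        rw [hg2] at h4
        rw [h4]
        exact h3
    have hout : ∀ x, x ∉ {x | S0.Sg 0 n x} → D x = x ∨ E x = x := by
      intro x hx
      by_cases hU : US x
      · exact Or.inr (hEU x hU hx)
      · exact Or.inl (dir_not_US _ hU)
    have hcomm := comm_outside D E {x | S0.Sg 0 n x} (fun x => hdC _ x) (fun x => hECiff x) hout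
    -- the commutator
    set T := D * E * D⁻¹ * E⁻¹ with hT
    have hTm : T ∈ GW S0 := mul_mem (mul_mem (mul_mem hDm hEm) (inv_mem hDm)) (inv_mem hEm)
    have hDi : ∀ x, D (D⁻¹ x) = x := fun x => D.apply_symm_apply x
    have hEi : ∀ x, E (E⁻¹ x) = x := fun x => E.apply_symm_apply x
    have hEi' : ∀ x, E⁻¹ (E x) = x := fun x => E.symm_apply_apply x
    have hT1 : ∀ x, ¬ S0.Sg 0 n x → T x = x := by
      intro x hx
      have h1 : ¬ S0.Sg 0 n (E⁻¹ x) := by
        intro hc
        have := (hECiff _).1 hc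
        rw [hEi] at this
        exact hx this
      have h2 : ¬ S0.Sg 0 n (D⁻¹ (E⁻¹ x)) := by
        intro hc
        have := (hdC ((1 : Lp), a) _).1 hc
        rw [← hD, hDi] at this
        exact h1 this
      show D (E (D⁻¹ (E⁻¹ x))) = x
      rw [hcomm _ h2, hDi, hEi]
    have hT2 : ∀ x, S0.Sg 0 n x → T x = dir (S := S0) 0 ((1 : Lp), a * b * a⁻¹ * b⁻¹) x := by
      intro x hx
      have hE' : E⁻¹ x = D'⁻¹ x := by
        have h1 : E (D'⁻¹ x) = x := by
          have h2 : S0.Sg 0 n (D'⁻¹ x) := by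
            rw [hD', ← map_inv]
            exact (hdC _ _).1 hx
          rw [hEC _ h2]
          exact D'.apply_symm_apply x
        conv_lhs => rw [← h1]
        exact hEi' _
      have h3 : S0.Sg 0 n (D⁻¹ (D'⁻¹ x)) := by
        have e1 : D⁻¹ = dir (S := S0) 0 ((1 : Lp), a)⁻¹ := by rw [map_inv]
        have e2 : D'⁻¹ = dir (S := S0) 0 ((1 : Lp), b)⁻¹ := by rw [map_inv]
        rw [e1, e2]
        exact (hdC _ _).1 ((hdC _ _).1 hx)
      show D (E (D⁻¹ (E⁻¹ x))) = _
      rw [hE', hEC _ h3]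
      have h4 : dir (S := S0) 0 ((1 : Lp), a * b * a⁻¹ * b⁻¹) = D * D' * D⁻¹ * D'⁻¹ := by
        rw [hD, hD', ← map_inv, ← map_inv, ← map_mul, ← map_mul, ← map_mul]
        congr 1
      rw [h4]
      rfl
    -- conjugation to the next level
    have hfin : Rn (n+1) (a * b * a⁻¹ * b⁻¹) = (Rn n κ)⁻¹ * T * Rn n κ := by
      rw [mul_assoc (Rn n κ)⁻¹, eq_inv_mul_iff_mul_eq]
      ext1 x
      rw [Equiv.Perm.mul_apply, Equiv.Perm.mul_apply, Rn_apply, Rn_apply, Rn_apply]
      by_cases ho : ∀ j < n + 1, x j = S0.o j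
      · have ho' : ∀ j < n, x j = S0.o j := fun j hj => ho j (by omega)
        have hs : S0.Sg 0 n (RnF n κ x) := by
          refine ⟨Nat.zero_le _, ?_, fun j _ hj => ?_⟩
          · rw [RnF_pos ho', ho n (by omega)]
            show ((0 : Fin 5 → ZMod (n+2)), (0 : ZMod 2), κ 0) = (0, 0, 1)
            rw [hk0]
          · rw [RnF_ne (by omega)]; exact ho' j hj
        rw [hT2 _ hs, dir_apply]
        funext i
        by_cases hi : i = n + 1
        · subst hi
          rw [dirPt_succ_pos _ hs, RnF_ne (by omega : n + 1 ≠ n), RnF_pos ho, RnF_ne (by omega : n + 1 ≠ n)]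
          exact (act_q _ _ _).symm
        · have h5 : S0.dirPt 0 ((1 : Lp), a * b * a⁻¹ * b⁻¹) (RnF n κ x) i = RnF n κ x i := by
            cases i with
            | zero => rfl
            | succ k =>
              refine dirPt_succ_neg _ fun hc => hi ?_
              rw [Sg_unique hc hs]
          rw [h5]
          by_cases hin : i = n
          · subst hin
            have h6 : ∀ j < i, RnF (i+1) (a * b * a⁻¹ * b⁻¹) x j = S0.o j := fun j hj => by
              rw [RnF_ne (by omega)]; exact ho' j hj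
            rw [RnF_pos h6, RnF_pos ho', RnF_ne (by omega)]
          · rw [RnF_ne hin, RnF_ne hi, RnF_ne hin]
      · rw [RnF_neg ho, hT1]
        intro hs
        apply ho
        intro j hj
        by_cases hjn : j < n
        · have := hs.2.2 j (Nat.zero_le _) hjn
          rwa [RnF_ne (by omega)] at this
        · have hjn' : j = n := by omega
          subst hjn'
          have ho' : ∀ i < j, x i = S0.o i := fun i hi => by
            have := hs.2.2 i (Nat.zero_le _) hi
            rwa [RnF_ne (by omega)] at this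
          have h6 := hs.2.1
          rw [RnF_pos ho'] at h6
          have e1 : (x j).1 = 0 := congrArg (fun z : Xl (j+2) => z.1) h6
          have e2 : (x j).2.1 = 0 := congrArg (fun z : Xl (j+2) => z.2.1) h6
          have e3 : κ (x j).2.2 = 1 := congrArg (fun z : Xl (j+2) => z.2.2) h6
          have e4 : (x j).2.2 = 0 := κ.injective (by rw [e3, hk0])
          exact Prod.ext e1 (Prod.ext e2 e4)
    rw [hfin]
    exact mul_mem (mul_mem (inv_mem hκm) hTm) hκm

end Pool.Agent.H71R2.WB
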