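import Mathlib
import Pool.Agent.H71R2.WB.Gen
import Pool.Agent.H71R2.WB.Rist

set_option autoImplicit false
set_option linter.unusedSectionVars false
set_option linter.unusedVariables false

namespace Pool.Agent.H71R2.WB

open Pool.Agent.Helper889 Pool.Agent.Helper889.Br

theorem wb_generic (S : Sys) (hc : ∀ i, 2 ≤ Fintype.card (S.X i))
    (htr : ∀ (n : ℕ) (x y : S.Bd), ∃ g : GW S, ∀ i < n, (g : Equiv.Perm S.Bd) x i = y i)
    (hr : ∀ (n : ℕ) (x : S.Bd), ∃ g : GW S, g ≠ 1 ∧ ∀ z : S.Bd, (∃ i < n, z i ≠ x i) → (g : Equiv.Perm S.Bd) z = z) :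
    ∃ (m : ℕ → ℕ) (_ : ∀ i, 2 ≤ m i) (ρ : GW S →* Equiv.Perm ((i : ℕ) → Fin (m i))), Function.Injective ρ ∧
      (∀ (g : GW S) (x y : (i : ℕ) → Fin (m i)) (n : ℕ), (∀ i < n, x i = y i) → ∀ i < n, ρ g x i = ρ g y i) ∧
      (∀ (n : ℕ) (x y : (i : ℕ) → Fin (m i)), ∃ g : GW S, ∀ i < n, ρ g x i = y i) ∧
      (∀ (n : ℕ) (x : (i : ℕ) → Fin (m i)), ∃ g : GW S, g ≠ 1 ∧
        ∀ z : (i : ℕ) → Fin (m i), (∃ i < n, z i ≠ x i) → ρ g z = z) := by
  classical
  let e : ∀ i, S.X i ≃ Fin (Fintype.card (S.X i)) := fun i => Fintype.equivFin (S.X i)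
  let E : S.Bd ≃ ((i : ℕ) → Fin (Fintype.card (S.X i))) := Equiv.piCongrRight e
  let ρ : GW S →* Equiv.Perm ((i : ℕ) → Fin (Fintype.card (S.X i))) := (E.permCongrHom).toMonoidHom.comp (GW S).subtype
  have hρ : ∀ (g : GW S) (x : (i : ℕ) → Fin (Fintype.card (S.X i))) (i : ℕ),
      ρ g x i = e i ((g : Equiv.Perm S.Bd) (fun j => (e j).symm (x j)) i) := fun g x i => rfl
  refine ⟨fun i => Fintype.card (S.X i), hc, ρ, ?_, ?_, ?_, ?_⟩
  · exact E.permCongrHom.injective.comp (GW S).subtype_injective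
  · intro g x y n hxy i hi
    rw [hρ, hρ]
    congr 1
    exact (GW_TA g.2 _ _ n).1 (fun j hj => by rw [hxy j hj]) i hi
  · intro n x y
    obtain ⟨g, hg⟩ := htr n (fun j => (e j).symm (x j)) (fun j => (e j).symm (y j))
    exact ⟨g, fun i hi => by rw [hρ, hg i hi, Equiv.apply_symm_apply]⟩
  · intro n x
    obtain ⟨g, hg1, hg⟩ := hr n (fun j => (e j).symm (x j))
    refine ⟨g, hg1, fun z hz => ?_⟩
    obtain ⟨i, hi, hne⟩ := hz
    funext k
    rw [hρ, hg _ ⟨i, hi, fun hc => hne ((e i).symm.injective hc)⟩, Equiv.apply_symm_apply]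

/-- the directed part acts transitively on letters -/
theorem act_trans (m : ℕ) (x y : Xl m) : ∃ h : Hl, act m h x = y := by
  obtain ⟨i, e, u⟩ := x
  obtain ⟨i', e', u'⟩ := y
  obtain ⟨n, hn⟩ : ∃ n : B5, pr m n = i' - i := by
    choose f hf using fun j : Fin 5 => ZMod.intCast_surjective (i' j - i j)
    exact ⟨f, funext hf⟩
  obtain ⟨b, hb⟩ : ∃ b : B5, pr m b = i' := by
    choose f hf using fun j : Fin 5 => ZMod.intCast_surjective (i' j)
    exact ⟨f, funext hf⟩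
  refine ⟨(⟨Finsupp.single b (e' - e), n⟩, Equiv.swap u u'), ?_⟩
  rw [act_apply]
  show (pr m n + i, e + bar m (Finsupp.single b (e' - e)) (pr m n + i), Equiv.swap u u' u) = (i', e', u')
  have h1 : pr m n + i = i' := by rw [hn]; abel
  have h2 : bar m (Finsupp.single b (e' - e)) i' = e' - e := by
    unfold bar
    rw [Finsupp.mapDomain_single, hb, Finsupp.single_eq_same]
  rw [h1, h2, Equiv.swap_apply_left, add_sub_cancel]

theorem S0_tr (k : ℕ) (x y : S0.X (k+1)) : ∃ h, S0.ρ k h x = y := act_trans (k+3) x y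

theorem Rn_ne (n : ℕ) {q : P5} (hq : q ≠ 1) : Rn n q ≠ 1 := by
  intro h
  apply hq
  ext1 u
  obtain ⟨x, hx1, hx2⟩ : ∃ x : S0.Bd, (∀ j < n, x j = S0.o j) ∧ x n = ((0, 0, u) : Xl (n+2)) := by
    refine ⟨Function.update S0.o n (0, 0, u), fun j hj => ?_, ?_⟩
    · rw [Function.update_of_ne (by omega)]
    · rw [Function.update_self]
  have h1 : Rn n q x n = x n := by rw [h]; rfl
  rw [Rn_apply, RnF_pos hx1, hx2] at h1
  exact congrArg (fun z : Xl (n+2) => z.2.2) h1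

theorem S0_card (i : ℕ) : 2 ≤ Fintype.card (S0.X i) := by
  have h : Function.Injective (fun b : Bool => ((0, 0, if b then 1 else 0) : Xl (i+2))) := by
    intro b b' hb
    have h1 : (if b then (1 : Fin 5) else 0) = if b' then 1 else 0 := congrArg (fun z : Xl (i+2) => z.2.2) hb
    revert h1
    cases b <;> cases b' <;> decide
  have h2 := Fintype.card_le_of_injective _ h
  rw [Fintype.card_bool] at h2
  exact h2

theorem S0_rist (n : ℕ) (x : S0.Bd) : ∃ g : GW S0, g ≠ 1 ∧ ∀ z : S0.Bd, (∃ i < n, z i ≠ x i) → (g : Equiv.Perm S0.Bd) z = z := by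
  obtain ⟨s1, s2, hs0, hs1⟩ := ex_sigma
  have hσ : s1 * s2 * s1⁻¹ * s2⁻¹ ≠ 1 := by
    intro h
    rw [h] at hs1
    exact absurd hs1 (by decide)
  have hm := Rn_mem n s1 s2
  have hne := Rn_ne n hσ
  have hz : ∀ z : S0.Bd, (¬ ∀ j < n, z j = S0.o j) → Rn n (s1 * s2 * s1⁻¹ * s2⁻¹) z = z := fun z hz => by
    rw [Rn_apply]
    exact RnF_neg hz
  generalize Rn n (s1 * s2 * s1⁻¹ * s2⁻¹) = R at hm hne hz
  exact rist_of n (level_trans S0_tr n) ⟨R, hm⟩ (fun hc => hne (congrArg Subtype.val hc)) hz x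

theorem gH_top : Subgroup.closure (Set.range gH) = ⊤ := by
  apply Hl_gen
  rintro x ((hx | ⟨i, rfl⟩) | ⟨q, rfl⟩)
  · rw [Set.mem_singleton_iff] at hx
    exact Subgroup.subset_closure ⟨Sum.inl (), hx.symm⟩
  · exact Subgroup.subset_closure ⟨Sum.inr (Sum.inl (i, true)), rfl⟩
  · exact Subgroup.subset_closure ⟨Sum.inr (Sum.inr q), rfl⟩

/-- inversion of the generators -/
def sI : Equiv.Perm JH := Equiv.sumCongr (Equiv.refl _) (Equiv.sumCongr (Equiv.prodCongr (Equiv.refl _) Equiv.boolNot) (Equiv.inv _))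

theorem gH_inv (j : JH) : gH (sI j) = (gH j)⁻¹ := by
  rcases j with u | ⟨i, b⟩ | q
  · show ((la, 1) : Hl) = ((la, 1) : Hl)⁻¹
    rw [Prod.inv_mk, la_inv, inv_one]
  · show ((lt (stp (i, !b)), 1) : Hl) = ((lt (stp (i, b)), 1) : Hl)⁻¹
    rw [Prod.inv_mk, lt_inv, inv_one]
    congr 2
    unfold stp
    rw [← Pi.single_neg]
    congr 1
    cases b <;> rfl
  · show ((1, q⁻¹) : Hl) = ((1, q) : Hl)⁻¹
    rw [Prod.inv_mk, inv_one]

theorem amen_GW : Br.Amenable (GW S0) :=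
  amenable_closure (S := S0) Tg Fol_Hl (Hl_gen _ Subgroup.subset_closure)

end Pool.Agent.H71R2.WB
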